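import Pool.Agent.W836.SH.Stm

/-! # SH-AFAM: set families with weights -/

set_option autoImplicit false

open scoped Classical

namespace Pool.Agent.W359.SH.AFam

open Pool.Agent.W836.SH

variable {ι : Type}

/-- two rows separating three members -/
lemma choose_ab {Z : Finset (Finset ι)} (hZ : 3 ≤ Z.card)
    (hu : ∀ a, ∀ Y ∈ Z, ∀ Y' ∈ Z, a ∈ Y → a ∉ Y' → ∀ Y'' ∈ Z, a ∈ Y'' → Y'' = Y) :
    ∃ (a b : ι) (Yc Ya Yb : Finset ι), Yc ∈ Z ∧ Ya ∈ Z ∧ Yb ∈ Z ∧ a ∈ Ya ∧ a ∉ Yc ∧ a ∉ Yb ∧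
      b ∈ Yb ∧ b ∉ Yc ∧ b ∉ Ya := by
  have sep : ∀ Y Y' : Finset ι, Y ≠ Y' → (∃ a, a ∈ Y ∧ a ∉ Y') ∨ ∃ a, a ∈ Y' ∧ a ∉ Y := by
    intro Y Y' h
    by_contra hcon
    push Not at hcon
    apply h
    ext a
    exact ⟨hcon.1 a, hcon.2 a⟩
  -- given a in Y1 and not in Y2
  have key : ∀ (a : ι) (Y1 Y2 Y3 : Finset ι), Y1 ∈ Z → Y2 ∈ Z → Y3 ∈ Z → Y1 ≠ Y2 → Y1 ≠ Y3 →
      Y2 ≠ Y3 → a ∈ Y1 → a ∉ Y2 →
      ∃ (a b : ι) (Yc Ya Yb : Finset ι), Yc ∈ Z ∧ Ya ∈ Z ∧ Yb ∈ Z ∧ a ∈ Ya ∧ a ∉ Yc ∧ a ∉ Yb ∧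
      b ∈ Yb ∧ b ∉ Yc ∧ b ∉ Ya := by
    intro a Y1 Y2 Y3 h1 h2 h3 h12 h13 h23 ha1 ha2
    have ha3 : a ∉ Y3 := fun h => h13 (hu a Y1 h1 Y2 h2 ha1 ha2 Y3 h3 h).symm
    rcases sep Y2 Y3 h23 with ⟨b, hb2, hb3⟩ | ⟨b, hb3, hb2⟩
    · have hb1 : b ∉ Y1 := fun h => h12 (hu b Y2 h2 Y3 h3 hb2 hb3 Y1 h1 h)
      exact ⟨a, b, Y3, Y1, Y2, h3, h1, h2, ha1, ha3, ha2, hb2, hb3, hb1⟩
    · have hb1 : b ∉ Y1 := fun h => h13 (hu b Y3 h3 Y2 h2 hb3 hb2 Y1 h1 h)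
      exact ⟨a, b, Y2, Y1, Y3, h2, h1, h3, ha1, ha2, ha3, hb3, hb2, hb1⟩
  obtain ⟨Y1, h1, Y2, h2, Y3, h3, h12, h13, h23⟩ := Finset.two_lt_card.1 (by omega : 2 < Z.card)
  rcases sep Y1 Y2 h12 with ⟨a, ha1, ha2⟩ | ⟨a, ha2, ha1⟩
  · exact key a Y1 Y2 Y3 h1 h2 h3 h12 h13 h23 ha1 ha2
  · exact key a Y2 Y1 Y3 h2 h1 h3 h12.symm h23 h13 ha2 ha1

theorem main (h1 : S_FREM) (h2 : S_AZ0) (h3 : S_AP) (h4 : S_AE) (h5 : S_AFIN) : S_AFAM := by
  intro ι I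
  induction hn : I.card using Nat.strong_induction_on generalizing I with
  | _ n ih =>
  intro F o τ ht0 ht1 hFG hsub ho
  by_cases hI : I = ∅
  · subst hI
    have : F ⊆ {∅} := by
      intro S hS
      have := hsub S hS
      rw [Finset.mem_singleton]
      exact Finset.subset_empty.1 this
    have h := Finset.card_le_card this
    simp only [Finset.card_singleton] at h
    omega
  have hne : I.Nonempty := Finset.nonempty_iff_ne_empty.2 hI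
  by_cases hsmall : ∃ i ∈ I, (Zf i F).card ≤ 2
  · obtain ⟨i, hi, hZ⟩ := hsmall
    obtain ⟨hc, hF⟩ := h1 ι F i τ o
    have hoi : o i ≤ 1 / 2 := by
      rcases ho i hi with h | h
      · rw [h]; norm_num
      · exact h.2
    have hcard : (I.erase i).card = I.card - 1 := Finset.card_erase_of_mem hi
    have hpos : 0 < I.card := Finset.card_pos.2 hne
    have := ih (I.erase i).card (by omega) (I.erase i) rfl (F.image (fun S => S.erase i)) o τ ht0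
      ht1 (hF hoi hFG) (by
        intro S hS
        rw [Finset.mem_image] at hS
        obtain ⟨T, hT, rfl⟩ := hS
        exact Finset.erase_subset_erase i (hsub T hT)) (by
        intro j hj
        exact ho j (Finset.mem_of_mem_erase hj))
    omega
  push Not at hsmall
  have hbig : ∀ i ∈ I, 3 ≤ (Zf i F).card := fun i hi => hsmall i hi
  have hot : ∀ i ∈ I, τ ≤ o i ∧ o i ≤ 1 / 2 := by
    intro i hi
    rcases ho i hi with h | h
    · have := h2 ι F o τ i ht0 ht1 hFG h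
      have := hbig i hi
      omega
    · exact h
  have hZsub : ∀ i, ∀ Y ∈ Zf i F, Y ⊆ I := by
    intro i Y hY
    unfold Zf at hY
    exact hsub Y (Finset.mem_filter.1 hY).1
  -- all weights are `τ`
  have hall : ∀ l ∈ I, o l = τ := by
    by_contra hcon
    push Not at hcon
    obtain ⟨l0, hl0, hl0t⟩ := hcon
    set L := I.filter (fun l => o l ≠ τ) with hL
    have hLne : L.Nonempty := ⟨l0, Finset.mem_filter.2 ⟨hl0, hl0t⟩⟩
    obtain ⟨l, hl, hmin⟩ := Finset.exists_min_image L o hLne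
    have hlI : l ∈ I := (Finset.mem_filter.1 hl).1
    have hlt : o l ≠ τ := (Finset.mem_filter.1 hl).2
    -- the claim
    have claim : ∀ i ∈ I, o i = τ → ∀ Y ∈ Zf l F, i ∉ Y := by
      intro i hi hit Y hY hiY
      obtain ⟨_, ht3, _, hA, hB⟩ := h3 ι F o τ i ht0 ht1 hFG (by rw [hit]) (hbig i hi) (by
        intro a Y hY Y' _ haY _
        have haI := hZsub i Y hY haY
        rw [hit]
        exact hot a haI)
      obtain ⟨a, b, Yc, Ya, Yb, hc, ha, hb, a1, a2, a3, b1, b2, b3⟩ := choose_ab (hbig i hi)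
        (fun a Y hY Y' hY' haY haY' => (hA a Y hY Y' hY' haY haY').2)
      have hconst : ∀ Y1 ∈ Zf i F, ∀ Y2 ∈ Zf i F, l ∈ Y1 → l ∈ Y2 := by
        intro Y1 hY1 Y2 hY2 h
        by_contra h'
        exact hlt (hA l Y1 hY1 Y2 hY2 h h').1
      have hli : l ≠ i := by
        rintro rfl
        exact hlt hit
      have hE := h4 ι F o τ i a b l Yc Ya Yb ht3 ht1 hFG hc ha hb a1 a2 a3 b1 b2 b3 hit
        (hA a Ya ha Yc hc a1 a2).1 (hA b Yb hb Yc hc b1 b2).1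
        (hB a b Ya ha Yb hb a1 a3 b1 b3) hli
        ⟨hconst Ya ha Yc hc, hconst Yc hc Ya ha⟩ ⟨hconst Yb hb Yc hc, hconst Yc hc Yb hb⟩
        (hot l hlI).1 (hot l hlI).2
      unfold Zf at hY
      obtain ⟨hYF, hlY, hins⟩ := Finset.mem_filter.1 hY
      have e1 := hE Y hYF hiY
      have e2 := hE (insert l Y) hins (Finset.mem_insert_of_mem hiY)
      exact hlY (e1.2 (e2.1 (Finset.mem_insert_self l Y)))
    obtain ⟨hlt', _⟩ := h3 ι F o τ l ht0 ht1 hFG (hot l hlI).1 (hbig l hlI) (by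
      intro a Y hY Y' _ haY _
      have haI := hZsub l Y hY haY
      refine ⟨?_, (hot a haI).2⟩
      apply hmin a
      rw [hL, Finset.mem_filter]
      refine ⟨haI, fun hat => ?_⟩
      exact claim a haI hat Y hY haY)
    exact hlt hlt'
  have := h5 ι I F o τ ht0 ht1 hFG hsub hall hbig
  omega

end Pool.Agent.W359.SH.AFam
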